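import Mathlib
import Pool.Agent.Lib.MP_3b7f8d_lc.Limit
import Pool.Agent.Lib.MP_3b7f8d_lc.DD.Defs
import Pool.Agent.Lib.MP_3b7f8d_lc.DD.Law

namespace Pool.Agent.Results.MP_3b7f8d_lc.Deterministic

open Finset MeasureTheory Pool.Agent.Lib.MP_3b7f8d_lc

theorem lintegral_count {n m : ℕ} (P : Measure (Fin m → Row n)) (z c : Fin n → ℝ) :
    Measurable (fun r : Fin m → Row n => {B | FP.InShadow r z c B}.ncard) ∧
      ∫⁻ r, ({B | FP.InShadow r z c B}.ncard : ℕ) ∂P = ∑ B, P {r | FP.InShadow r z c B} := by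
  have e : ∀ r : Fin m → Row n, {B | FP.InShadow r z c B}.ncard =
      ∑ B, {r | FP.InShadow r z c B}.indicator 1 r :=
    fun r => ncard_eq_sum (fun B => {r | FP.InShadow r z c B}) r
  simp only [e]
  refine ⟨Finset.measurable_sum _ fun B _ => measurable_one.indicator (FP.meas_shadow z c B), ?_⟩
  simp only [← lintegral_indicator_one (FP.meas_shadow z c _)]
  rw [← lintegral_finsetSum _ fun B _ => measurable_one.indicator (FP.meas_shadow z c B)]
  refine lintegral_congr fun r => ?_
  push_cast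
  refine sum_congr rfl fun B _ => ?_
  by_cases h : r ∈ {r | FP.InShadow r z c B} <;> simp [h]

theorem result (f : ℝ → ℝ) (hf : Measurable f) (h0 : ∀ x, 0 ≤ f x) (h1 : ∀ x, f x ≤ 1)
    (hi : ∫ x, f x = 1) (hm : Integrable fun x => |x| * f x) (hc : ∀ᵐ x, ContinuousAt f x) :
    ∃ (C : ℝ) (k : ℕ), ∀ σ : ℝ, 0 < σ → σ ≤ 1 →
      ∀ (m n : ℕ) (A : Fin m → Fin n → ℝ) (b : Fin m → ℝ) (c : Fin n → ℝ)
        (π : Equiv.Perm (Fin n)),
      ∑ i, ∑ j, A i j ^ 2 + ∑ i, b i ^ 2 ≤ 1 → (c = 0 ∨ DD.seq π c 0 ≠ 0) →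
      ∃ W : (Fin m → Row n) → ℕ, Measurable W ∧
        ∫⁻ r, W r ∂inputLaw f σ A b ≤ ENNReal.ofReal (C * (m + n + 1 / σ) ^ k) ∧
        ∀ᵐ inp ∂inputLaw f σ A b,
          DD.Halts π inp c (Correct inp c) (true, 0, true, ∅) (W inp) := by
  have hD : FP.Den f (∫ x, |x| * f x) := ⟨hf, h0, h1, hi, hm, le_rfl⟩
  obtain ⟨κ, hκ⟩ : ∃ κ, κ = ∫ x, |x| * f x := ⟨_, rfl⟩
  rw [← hκ] at hD
  have hκ0 := hD.kappa
  obtain ⟨C, k, hC, h⟩ := FP.plane_bound hD hc
  refine ⟨4 * (2 + C * (4 + κ) ^ k), k + 2, fun σ hσ hσ1 m n A b c π hAb hcπ => ?_⟩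
  have hs1 : 0 ≤ ∑ i, ∑ j, A i j ^ 2 := by positivity
  have hs2 : 0 ≤ ∑ i, b i ^ 2 := by positivity
  have hA : ∀ i j, |A i j| ≤ 1 := fun i j => (sq_le_one_iff_abs_le_one _).1 (by
    have h2 := single_le_sum (f := fun j => A i j ^ 2) (fun _ _ => sq_nonneg _) (mem_univ j)
    have h3 := single_le_sum (f := fun i => ∑ j, A i j ^ 2) (fun _ _ => by positivity)
      (mem_univ i)
    linarith)
  have hb : ∀ i, |b i| ≤ 1 := fun i => (sq_le_one_iff_abs_le_one _).1 (by
    have h2 := single_le_sum (f := fun i => b i ^ 2) (fun _ _ => sq_nonneg _) (mem_univ i)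
    linarith)
  have hp : ∀ u, IsProbabilityMeasure (pert f σ u) := fun u => (hD.nice hσ hσ1 (le_refl |u|)).prob
  have : IsProbabilityMeasure (inputLaw f σ A b) := by
    unfold inputLaw
    infer_instance
  obtain ⟨v, hv⟩ : ∃ v : ℝ, v = m + n + 1 / σ := ⟨_, rfl⟩
  have hφ : 1 ≤ 1 / σ := one_le_one_div hσ hσ1
  have hn0 : (0 : ℝ) ≤ n := Nat.cast_nonneg n
  have hm0 : (0 : ℝ) ≤ m := Nat.cast_nonneg m
  have hv1 : 1 ≤ v := by linarith
  have hmeas : ∀ ph j, Measurable fun inp : Fin m → Row n => DD.len π inp c ph j := by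
    intro ph j
    refine measurable_const.add ((lintegral_count 0 _ _).1.comp (measurable_pi_iff.2 fun i =>
      Measurable.prodMk (measurable_pi_iff.2 fun l => ?_) ?_))
    · have hs : ∀ l, Measurable fun inp : Fin m → Row n => DD.seq π (inp i).1 l := fun l => by
        unfold DD.seq
        split_ifs <;> fun_prop
      obtain ⟨_ | l, hl⟩ := l <;> cases ph
      · exact hs _
      · exact (measurable_snd.comp (measurable_pi_apply i)).sub_const 1
      · exact hs _
      · exact hs _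
    · cases ph
      · exact measurable_snd.comp (measurable_pi_apply i)
      · exact measurable_const
  refine ⟨fun inp => ∑ ph, ∑ j ∈ Ico 0 (DD.dim n ph + 1), DD.len π inp c ph j,
    Finset.measurable_sum _ fun ph _ => Finset.measurable_sum _ fun j _ => hmeas ph j, ?_, ?_⟩
  · have h2 : ∀ ph j, Measurable fun inp : Fin m → Row n => (DD.len π inp c ph j : ENNReal) :=
      fun ph j => measurable_from_top.comp (hmeas ph j)
    push_cast
    rw [lintegral_finsetSum _ fun ph _ => Finset.measurable_fun_sum _ fun j _ => h2 ph j, ← hv]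
    refine (sum_le_card_nsmul _ _ (ENNReal.ofReal (2 * v * ((2 + C * (4 + κ) ^ k) * v ^ (k + 1))))
      fun ph _ => ?_).trans (le_of_eq ?_)
    · rw [lintegral_finsetSum _ fun j _ => h2 ph j]
      refine (sum_le_card_nsmul _ _ (ENNReal.ofReal ((2 + C * (4 + κ) ^ k) * v ^ (k + 1)))
        fun j hj => ?_).trans ?_
      · have hj' := Nat.lt_succ_iff.1 (mem_Ico.1 hj).2
        obtain ⟨A', β, h3, h4, h5⟩ := DD.stage_law hD hσ hσ1 hA hb π ph hj'
        obtain ⟨h6, h7⟩ := lintegral_count (FP.sysLaw f σ A' β) (DD.aux j true)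
          (DD.cut (DD.obj π c ph) j)
        have h8 : (j : ℝ) ≤ n + 1 := by exact_mod_cast hj'.trans (DD.dim_le ph)
        simp only [DD.len]
        push_cast
        rw [lintegral_add_left measurable_const, lintegral_const, measure_univ, mul_one,
          h5.lintegral_comp (f := fun r =>
            (({B | FP.InShadow r (DD.aux j true) (DD.cut (DD.obj π c ph) j) B}.ncard : ℕ) :
              ENNReal)) (measurable_from_top.comp h6), h7, add_mul, ENNReal.ofReal_add (by positivity) (by positivity)]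
        refine add_le_add ?_ ((h σ hσ hσ1 m j _ ((4 + κ) * v) A' β _ _ (by positivity) h3 h4
          ?_).trans (ENNReal.ofReal_le_ofReal ?_))
        · rw [show (m + 2 : ENNReal) = ENNReal.ofReal (m + 2 : ℕ) by
            rw [ENNReal.ofReal_natCast]; push_cast; rfl]
          refine ENNReal.ofReal_le_ofReal ?_
          have h9 : v ≤ v ^ (k + 1) := le_self_pow₀ hv1 (Nat.succ_ne_zero k)
          push_cast
          linarith
        · have h9 : 2 / σ = 2 * (1 / σ) := by ring
          nlinarith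
        · rw [mul_pow, ← mul_assoc]
          gcongr
          omega
      · rw [nsmul_eq_mul, ← ENNReal.ofReal_natCast, ← ENNReal.ofReal_mul (by positivity)]
        refine ENNReal.ofReal_le_ofReal (mul_le_mul_of_nonneg_right ?_ (by positivity))
        have h3 : (DD.dim n ph : ℝ) ≤ n + 1 := by exact_mod_cast DD.dim_le ph
        rw [Nat.card_Ico, Nat.sub_zero]
        push_cast
        linarith
    · rw [card_univ, Fintype.card_bool, nsmul_eq_mul, ← ENNReal.ofReal_natCast,
        ← ENNReal.ofReal_mul (by positivity)]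
      congr 1
      push_cast
      ring
  · refine Filter.Eventually.mono ?_ fun inp hG => DD.halts hcπ hG
    refine ae_all_iff.2 fun ph => ae_all_iff.2 fun j => ?_
    by_cases hj : j ≤ DD.dim n ph
    swap
    · exact Filter.Eventually.of_forall fun _ h => absurd h hj
    obtain ⟨A', β, h3, h4, h5⟩ := DD.stage_law hD hσ hσ1 hA hb π ph hj
    have := fun i => (h4 i).prob
    have h6 := fun i => FP.rowOK (fun l => hD.nice hσ hσ1 (h3 i l)) (by positivity) (by positivity)
      (by positivity) (h4 i).small (h4 i).mom (le_max_left _ _) (le_max_right _ _)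
    filter_upwards [h5.quasiMeasurePreserving.ae (DD.ae_gen h6 _),
      h5.quasiMeasurePreserving.ae (DD.ae_gen h6 _)] with inp h7 h8 _ using ⟨h7, h8⟩

end Pool.Agent.Results.MP_3b7f8d_lc.Deterministic
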