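import Mathlib
import Pool.Agent.Lib.MP_3b7f8d_lc.Limit
import Pool.Agent.Lib.MP_3b7f8d_lc.FP.Plane

namespace Pool.Agent.Results.MP_3b7f8d_lc.FixedPlane

open Finset MeasureTheory Pool.Agent.Lib.MP_3b7f8d_lc

/-- The size of the shadow on the span of `z` and `c`: the number of feasible bases that are
optimal for some nonzero objective `s z + t c`. -/
noncomputable def shadow {n m : ℕ} (z c : Fin n → ℝ) (r : Fin m → Row n) : ℕ :=
  {B : Finset (Fin m) | (∃ x, IsBFS r univ B x) ∧ ∃ (s t : ℝ) (y : Fin m → ℝ),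
    s • z + t • c ≠ 0 ∧ IsDual r B (s • z + t • c) y}.ncard

theorem result (f : ℝ → ℝ) (hf : Measurable f) (h0 : ∀ x, 0 ≤ f x) (h1 : ∀ x, f x ≤ 1)
    (hi : ∫ x, f x = 1) (hm : Integrable fun x => |x| * f x) (hc : ∀ᵐ x, ContinuousAt f x) :
    ∃ (C : ℝ) (k : ℕ), ∀ σ : ℝ, 0 < σ → σ ≤ 1 →
      ∀ (m n : ℕ) (R : ℝ) (A : Fin m → Fin n → ℝ) (β : Fin m → Measure ℝ) (z c : Fin n → ℝ),
      0 ≤ R → (∀ i j, |A i j| ≤ R) → (∀ i, IsProbabilityMeasure (β i)) →
      (∀ i ε, 0 ≤ ε → β i {b | |b| ≤ ε} ≤ ENNReal.ofReal (R * ε)) →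
      (∀ i, ∫⁻ b, ENNReal.ofReal |b| ∂β i ≤ ENNReal.ofReal R) →
      Measurable (shadow (m := m) z c) ∧
        ∫⁻ r, shadow z c r ∂(Measure.pi fun i => (Measure.pi fun j => pert f σ (A i j)).prod (β i))
          ≤ ENNReal.ofReal (C * (m + n + R + 1 / σ) ^ k) := by
  obtain ⟨C, k, -, h⟩ := FP.plane_bound ⟨hf, h0, h1, hi, hm, le_rfl⟩ hc
  refine ⟨C, k, fun σ hσ hσ1 m n R A β z c hR hA h2 h3 h4 => ?_⟩
  have e : shadow (m := m) z c = fun r => ∑ B, {r | FP.InShadow r z c B}.indicator 1 r :=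
    funext fun r => ncard_eq_sum (fun B => {r | FP.InShadow r z c B}) r
  rw [e]
  refine ⟨Finset.measurable_sum _ fun B _ => measurable_one.indicator (FP.meas_shadow z c B),
    le_trans (le_of_eq ?_) (h σ hσ hσ1 m n R _ A β z c hR hA (fun i => ⟨h2 i, h3 i, h4 i⟩) le_rfl)⟩
  simp only [← lintegral_indicator_one (FP.meas_shadow z c _)]
  rw [← lintegral_finsetSum _ fun B _ => measurable_one.indicator (FP.meas_shadow z c B)]
  refine lintegral_congr fun r => ?_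
  push_cast
  refine sum_congr rfl fun B _ => ?_
  by_cases h : r ∈ {r | FP.InShadow r z c B} <;> simp [h]

end Pool.Agent.Results.MP_3b7f8d_lc.FixedPlane
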