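import Mathlib
import Pool.Agent.Lib.MP_3b7f8d_lc.Defs
import Pool.Agent.Lib.MP_3b7f8d_lc.Limit

namespace Pool.Agent.Results.MP_3b7f8d_lc.Polynomial

open Finset Filter MeasureTheory Pool.Agent.Lib.MP_3b7f8d_lc

theorem continuous_target {n m : ℕ} (c : Fin n → ℝ) (k : ℕ) :
    Continuous fun r : Idx n m → Row n => target r c k := by
  unfold target
  split_ifs <;> fun_prop

theorem target_update {n m : ℕ} (c : Fin n → ℝ) (k : ℕ) : ∀ l ∈ sys n m k,
    ∀ (r : Idx n m → Row n) ρ, target (Function.update r l ρ) c k = target r c k := by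
  intro l hl r ρ
  unfold target
  split_ifs with h
  · rw [Function.update_of_ne]
    rintro rfl
    simp [inr_mem_sys] at hl
  · rfl

theorem pow_aux (a b : ℝ) : b * (328000 * (a * b) ^ 11) = 328000 * a ^ 11 * b ^ 12 := by ring

theorem result (f : ℝ → ℝ) (hf : Measurable f) (h0 : ∀ x, 0 ≤ f x) (h1 : ∀ x, f x ≤ 1)
    (hi : ∫ x, f x = 1) (hm : Integrable fun x => |x| * f x) :
    ∃ C : ℝ, ∀ σ : ℝ, 0 < σ → σ ≤ 1 →
      ∀ (m n : ℕ) (A : Fin m → Fin n → ℝ) (b : Fin m → ℝ) (c : Fin n → ℝ),
      ∑ i, ∑ j, A i j ^ 2 + ∑ i, b i ^ 2 ≤ 1 →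
      ∃ W : ((Fin m → Row n) × (Fin n × Bool → ℝ)) × (Fin n → ℝ) → ℕ, Measurable W ∧
        ∫⁻ p, W p ∂((inputLaw f σ A b).prod (boxLaw n)).prod (auxLaw n) ≤
          ENNReal.ofReal (C * (m + n + 1 / σ) ^ 12) ∧
        ∀ inp θ, (∀ q, 0 ≤ θ q) → ∀ᵐ z ∂auxLaw n, ∀ᶠ M in atTop,
          Halts (rows M θ inp) z c (Correct inp c) (0, start m z) (W ((inp, θ), z)) := by
  set κ := 1 + ∫ x, |x| * f x with hκ
  have hκ1 : 1 ≤ κ := le_add_of_nonneg_right
    (integral_nonneg fun x => mul_nonneg (abs_nonneg x) (h0 x))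
  refine ⟨328000 * κ ^ 11, fun σ hσ hσ1 m n A b c hAb => ?_⟩
  have hs1 : 0 ≤ ∑ i, ∑ j, A i j ^ 2 := by positivity
  have hs2 : 0 ≤ ∑ i, b i ^ 2 := by positivity
  have hA : ∀ i j, Nice (pert f σ (A i j)) (1 / σ) κ := fun i j =>
    nice_pert hf h0 h1 hi hm hσ hσ1 ((sq_le_one_iff_abs_le_one _).1 (by
      have h2 := single_le_sum (f := fun j => A i j ^ 2) (fun _ _ => sq_nonneg _) (mem_univ j)
      have h3 := single_le_sum (f := fun i => ∑ j, A i j ^ 2) (fun _ _ => by positivity)
        (mem_univ i)
      linarith))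
  have hb : ∀ i, Nice (pert f σ (b i)) (1 / σ) κ := fun i =>
    nice_pert hf h0 h1 hi hm hσ hσ1 ((sq_le_one_iff_abs_le_one _).1 (by
      have h2 := single_le_sum (f := fun i => b i ^ 2) (fun _ _ => sq_nonneg _) (mem_univ i)
      linarith))
  have := fun i j => (hA i j).prob
  have := fun i => (hb i).prob
  set v : ℝ := m + n + 1 / σ with hv
  have hφ : 1 ≤ 1 / σ := one_le_one_div hσ hσ1
  have hn0 : (0 : ℝ) ≤ n := Nat.cast_nonneg n
  have hm0 : (0 : ℝ) ≤ m := Nat.cast_nonneg m
  have hvu : v ≤ κ * v := le_mul_of_one_le_left (by linarith) hκ1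
  let E : ℕ → ℕ → Finset (Idx n m) →
      Set (((Fin m → Row n) × (Fin n × Bool → ℝ)) × (Fin n → ℝ)) := fun k j B =>
    Prod.map (fun p => rows (j + 1) p.2 p.1) id ⁻¹' evE (fun r => target r c k) (sys n m k) B
  have hE : ∀ k j B, MeasurableSet (E k j B) := fun k j B =>
    ((continuous_rows _).measurable.prodMap measurable_id) (meas_evE (continuous_target c k) _ _)
  let F : ℕ → Finset (Idx n m) → Set (((Fin m → Row n) × (Fin n × Bool → ℝ)) × (Fin n → ℝ)) :=
    fun k B => {p | ∀ᶠ j in atTop, p ∈ E k j B}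
  have hF : ∀ k B, MeasurableSet (F k B) := by
    intro k B
    have h2 : F k B = ⋃ N, ⋂ j ≥ N, E k j B := by
      ext p
      simp [F]
    rw [h2]
    exact MeasurableSet.iUnion fun N => MeasurableSet.biInter (Set.to_countable _)
      fun j _ => hE k j B
  refine ⟨fun p => ∑ k ∈ Ico 0 (m + 1), ∑ B, (F k B).indicator 1 p, ?_, ?_, fun inp θ hθ => ?_⟩
  · exact Finset.measurable_sum _ fun k _ => Finset.measurable_sum _ fun B _ =>
      measurable_one.indicator (hF k B)
  · have h2 : ∀ p, ((∑ k ∈ Ico 0 (m + 1), ∑ B, (F k B).indicator 1 p : ℕ) : ENNReal) =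
        ∑ k ∈ Ico 0 (m + 1), ∑ B, (F k B).indicator 1 p := by
      intro p
      push_cast
      refine sum_congr rfl fun k _ => sum_congr rfl fun B _ => ?_
      by_cases h : p ∈ F k B <;> simp [h]
    simp only [h2]
    rw [lintegral_finsetSum _ fun k _ => Finset.measurable_fun_sum _ fun B _ =>
      measurable_one.indicator (hF k B)]
    calc _ ≤ ∑ _k ∈ Ico 0 (m + 1), ENNReal.ofReal (328000 * (κ * v) ^ 11) := by
          refine sum_le_sum fun k _ => ?_
          rw [lintegral_finsetSum _ fun B _ => measurable_one.indicator (hF k B)]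
          simp only [lintegral_indicator_one (hF k _)]
          refine sum_liminf_le _ (E k) fun j => ?_
          have hM : (0 : ℝ) < j + 1 := by positivity
          refine le_trans (le_of_eq (sum_congr rfl fun B _ => ?_)) (path_bound
            (rowLaws hM hA hb (by linarith) (u := κ * v) (by linarith) (by nlinarith) (by linarith))
            (continuous_target c k) hM (by linarith) (by linarith) (by linarith)
            (inl_mem_sys k) (target_update c k))
          exact ((preserving_rows _ _).prod (MeasurePreserving.id _)).measure_preimage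
            (meas_evE (continuous_target c k) _ _).nullMeasurableSet
      _ ≤ _ := by
          rw [sum_const, Nat.card_Ico, nsmul_eq_mul, ← ENNReal.ofReal_natCast,
            ← ENNReal.ofReal_mul (by positivity)]
          refine ENNReal.ofReal_le_ofReal ?_
          calc _ ≤ v * (328000 * (κ * v) ^ 11) := by
                gcongr
                simp only [Nat.sub_zero]
                push_cast
                linarith
            _ = _ := pow_aux κ v
  · filter_upwards [ae_all_iff.2 fun k => ae_nondeg (rows 1 θ inp) (target (rows 1 θ inp) c k)]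
      with z hz
    have h2 : ∀ᶠ M in atTop, ∀ k ∈ Ico 0 (m + 1), ∀ B,
        OnPath (rows M θ inp) (sys n m k) z (target (rows M θ inp) c k) B →
        ((inp, θ), z) ∈ F k B :=
      (eventually_all_finset _).2 fun k _ => eventually_all.2 fun B => eventually_stable
        (P := fun M => OnPath (rows M θ inp) (sys n m k) z (target (rows 1 θ inp) c k) B)
        fun _ _ _ => onPath_between
    filter_upwards [h2, eventually_correct (inp := inp) (c := c) hθ, eventually_ge_atTop 0]
      with M h2 hok hM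
    have hI := inv_start (r := rows M θ inp) (z := z) (c := c) (fun q => rfl)
      fun q => mul_nonneg hM (by linarith [hθ q])
    refine halts_of_inv (fun q => rfl) (fun k => ?_) hok _ _ hI ((rank_lt hI).le.trans
      (sum_le_sum fun k hk => ?_))
    · simpa only [Nondeg, rows_fst M 1, target_rows M 1] using hz k
    · rw [← ncard_eq_sum]
      exact Set.ncard_le_ncard (h2 k hk)

end Pool.Agent.Results.MP_3b7f8d_lc.Polynomial
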