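import Mathlib
import Pool.Agent.Lib.MP_3b7f8d_lc.ST.Defs
import Pool.Agent.Lib.MP_3b7f8d_lc.ST.Main

namespace Pool.Agent.Results.MP_3b7f8d_lc.SpielmanTeng

open MeasureTheory Pool.Agent.Lib.MP_3b7f8d_lc

theorem result (f : ℝ → ℝ) (hf : Measurable f) (h0 : ∀ x, 0 ≤ f x) (h1 : ∀ x, f x ≤ 1)
    (hi : ∫ x, f x = 1) (hm : Integrable fun x => |x| * f x) (hc : ∀ᵐ x, ContinuousAt f x) :
    ∃ (C : ℝ) (k : ℕ), ∀ σ : ℝ, 0 < σ → σ ≤ 1 →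
      ∀ (m n : ℕ) (A : Fin m → Fin n → ℝ) (b : Fin m → ℝ) (c : Fin n → ℝ),
      2 ≤ n → n ≤ m → ∑ i, ∑ j, A i j ^ 2 + ∑ i, b i ^ 2 ≤ 1 → c ≠ 0 →
      ∀ N : ℕ, N = ⌈3 * m * n * Real.log m⌉₊ → IsProbabilityMeasure (ST.simplexLaw n) ∧
      ∃ W : (Fin N → ST.Sub m n) → (Fin m → Row n) × (Fin n → ℝ) → ℕ, (∀ J, Measurable (W J)) ∧
        ∑ J, ∫⁻ p, W J p ∂(inputLaw f σ A b).prod (ST.simplexLaw n) ≤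
          Fintype.card (Fin N → ST.Sub m n) * ENNReal.ofReal (C * (m + n + 1 / σ) ^ k) ∧
        ∀ J, ∀ᵐ r ∂inputLaw f σ A b, ∀ᵐ α ∂ST.simplexLaw n,
          ∀ j, (∀ j', ST.smin r (J j') ≤ ST.smin r (J j)) → ∀ ζ : ℝ, 0 < ζ →
            ST.Halts r (J j) (ST.comb r (J j) α) c ζ (.inl (J j).1) (W J (r, α)) := by
  obtain ⟨C, k, h⟩ := ST.main (κ := ∫ x, |x| * f x) ⟨hf, h0, h1, hi, hm, le_rfl⟩ hc
  exact ⟨C, k, fun σ hσ hσ1 m n A b c hn hnm hA hc N hN =>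
    ⟨ST.prob_simplex hn, h σ hσ hσ1 m n A b c hn hnm hA hc N hN⟩⟩

end Pool.Agent.Results.MP_3b7f8d_lc.SpielmanTeng
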